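import Pool.Agent.Results.MP_cfafa5_al.NotHomeomorphic

/-!
# Left and right Ziegler spectra of different cardinalities

For the von Neumann regular ring of the starting file the left Ziegler spectrum injects into the
real line and the set of all subsets of the real line injects into the right Ziegler spectrum.
-/

set_option autoImplicit false

namespace Pool.Agent.Y136.Zg

open Cardinal Pool.Agent.Results.MP_cfafa5_al.NotHomeomorphic

/-- There are at least `2 ^ 𝔠` functionals with value `1` at the constant `1`. -/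
theorem card_functionals' :
    (2 : Cardinal) ^ Cardinal.continuum ≤
      Cardinal.mk {f : Module.Dual K (ℕ → K) // f (fun _ => 1) = 1} := by
  have h1 : Module.rank K (ℕ → K) = Cardinal.continuum := by
    rw [rank_fun_infinite]
    simp
  have h3 : (2 : Cardinal) ^ Cardinal.continuum ≤ Cardinal.mk (Module.Dual K (ℕ → K)) := by
    let b := Module.Free.chooseBasis K (ℕ → K)
    have e : (Module.Free.ChooseBasisIndex K (ℕ → K) → K) ≃ Module.Dual K (ℕ → K) :=
      (b.constr K).toEquiv
    rw [← Cardinal.mk_congr e, Cardinal.mk_pi, Cardinal.prod_const]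
    have h4 : Cardinal.mk (Module.Free.ChooseBasisIndex K (ℕ → K)) = Cardinal.continuum := by
      rw [← Module.Free.rank_eq_card_chooseBasisIndex, h1]
    have h5 : Cardinal.mk K = 2 := by
      rw [Cardinal.mk_fintype, ZMod.card]; rfl
    rw [h5, Cardinal.lift_id, Cardinal.lift_id, h4]
  let f₀ : Module.Dual K (ℕ → K) := LinearMap.proj 0
  have hf₀ : f₀ (fun _ => 1) = 1 := rfl
  let Θ : Module.Dual K (ℕ → K) → {f : Module.Dual K (ℕ → K) // f (fun _ => 1) = 1} × K :=
    fun f => (⟨f + (1 - f fun _ => 1) • f₀, by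
      rw [LinearMap.add_apply, LinearMap.smul_apply, hf₀, smul_eq_mul, mul_one]
      ring⟩, f fun _ => 1)
  have hΘ : Function.Injective Θ := by
    intro f g h
    have h4 : f (fun _ => 1) = g (fun _ => 1) := congrArg Prod.snd h
    have h5 : f + (1 - f fun _ => 1) • f₀ = g + (1 - g fun _ => 1) • f₀ :=
      congrArg (fun p => (Prod.fst p).1) h
    rw [h4] at h5
    exact add_right_cancel h5
  have h6 := h3.trans (Cardinal.mk_le_of_injective hΘ)
  rw [Cardinal.mk_prod, Cardinal.lift_id, Cardinal.lift_id] at h6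
  have hinf : ℵ₀ ≤ Cardinal.mk {f : Module.Dual K (ℕ → K) // f (fun _ => 1) = 1} :=
    Cardinal.aleph0_le_continuum.trans card_functionals.le
  have h7 : Cardinal.mk K ≤ Cardinal.mk {f : Module.Dual K (ℕ → K) // f (fun _ => 1) = 1} := by
    refine le_trans ?_ hinf
    rw [Cardinal.mk_fintype]
    exact Cardinal.natCast_lt_aleph0.le
  rwa [Cardinal.mul_eq_left hinf h7 (by
    rw [Cardinal.mk_fintype, ZMod.card]; norm_num)] at h6

theorem left_small : ∃ Ψ : LeftZg B → ℝ, Function.Injective Ψ := by
  obtain ⟨Ψ, hΨ⟩ := left_injective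
  have h2 : Cardinal.mk (Set (ℕ × List (List ℕ))) = Cardinal.mk ℝ := by
    rw [Cardinal.mk_set, Cardinal.mk_eq_aleph0 (ℕ × List (List ℕ)), Cardinal.two_power_aleph0,
      Cardinal.mk_real]
  obtain ⟨e⟩ := Cardinal.eq.1 h2
  exact ⟨fun c => e (Ψ c), e.injective.comp hΨ⟩

theorem right_large : ∃ Φ : Set ℝ → RightZg B, Function.Injective Φ := by
  obtain ⟨Φ, hΦ⟩ := right_injective
  have h2 : Cardinal.mk (Set ℝ) ≤
      Cardinal.mk {f : Module.Dual K (ℕ → K) // f (fun _ => 1) = 1} := by
    rw [Cardinal.mk_set, Cardinal.mk_real]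
    exact card_functionals'
  obtain ⟨e⟩ := Cardinal.le_def _ _ |>.1 h2
  exact ⟨fun s => Φ (e s), hΦ.comp e.injective⟩

theorem no_surjection (h : LeftZg B → RightZg B) : ¬ Function.Surjective h := by
  intro hs
  exact no_injection (Function.surjInv hs) (Function.injective_surjInv hs)

theorem two_torsion (a : B) : a + a = 0 := by
  apply Subtype.ext
  change (a : Module.End K Fn) + a = 0
  ext φ x
  exact CharTwo.add_self_eq_zero _

end Pool.Agent.Y136.Zg
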